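import Pool.Agent.Y298.EX.Stm

/-!
# EX-QUAD: the map is flat near a critical point (job of helper298, done by helper232)
-/

set_option autoImplicit false

open Set Filter Metric MeasureTheory Topology

namespace Pool.Agent.Y232.EX.Quad

open Pool.Agent.Y298.EX

theorem pow_lip (n : ℕ) {M : ℝ} {x y : ℂ} (hx : ‖x‖ ≤ M) (hy : ‖y‖ ≤ M) :
    ‖y ^ n - x ^ n‖ ≤ n * M ^ (n - 1) * ‖y - x‖ := by
  have h := Convex.norm_image_sub_le_of_norm_deriv_le (𝕜 := ℂ) (f := fun z : ℂ => z ^ n)
    (C := n * M ^ (n - 1)) (s := closedBall (0 : ℂ) M) (x := x) (y := y)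
    (fun z _ => differentiableAt_pow n) (by
      intro z hz
      rw [mem_closedBall, dist_zero_right] at hz
      have h1 : deriv (fun z : ℂ => z ^ n) z = n * z ^ (n - 1) := by simp
      rw [h1, norm_mul, norm_pow, Complex.norm_natCast]
      exact mul_le_mul_of_nonneg_left (pow_le_pow_left₀ (norm_nonneg _) hz _) (by positivity))
    (convex_closedBall _ _) (by rwa [mem_closedBall, dist_zero_right])
    (by rwa [mem_closedBall, dist_zero_right])
  exact h

theorem t_quad : S_QUAD := by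
  intro d a κ s σ ρ hd ha hs hσ hσ1 hsσ hκ hcrit hρ hρσ z hz
  have hda : Differentiable ℂ (deriv a) := by
    have h1 : ContDiff ℂ 2 a := ha.hol.contDiff
    exact (h1.differentiable_deriv_two)
  -- bound of the second derivative
  have h2a : ∀ x : ℂ, ‖x‖ ≤ 2 → ‖deriv (deriv a) x‖ ≤ s := by
    intro x hx
    have h1 := Complex.norm_deriv_le_of_forall_mem_sphere_norm_le (c := x) (R := 5) (C := s)
      (f := deriv a) (by norm_num) hda.diffContOnCl (by
        intro y hy
        rw [mem_sphere, dist_eq_norm] at hy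
        apply ha.dle
        rw [mem_ball, dist_zero_right]
        have := norm_le_norm_add_norm_sub' y x
        linarith)
    refine h1.trans ?_
    rw [div_le_iff₀ (by norm_num)]
    linarith
  have hball : ∀ x ∈ closedBall κ ρ, ‖x‖ ≤ 2 * σ := by
    intro x hx
    rw [mem_closedBall, dist_eq_norm] at hx
    have := norm_le_norm_add_norm_sub' x κ
    linarith
  have hκ2 : ‖κ‖ ≤ 2 * σ := by linarith
  have hσp : σ ^ (d - 1) ≤ σ ^ (d - 2) := pow_le_pow_of_le_one hσ.le hσ1 (by omega)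
  have hσp0 : 0 ≤ σ ^ (d - 2) := by positivity
  have hd2 : (2 : ℝ) ≤ d := by exact_mod_cast hd
  -- the derivative
  have hderiv : ∀ x : ℂ, deriv (fun z => z ^ d + a z) x = d * x ^ (d - 1) + deriv a x := by
    intro x
    rw [deriv_fun_add (differentiableAt_pow d) (ha.hol x)]
    simp
  have hbound : ∀ x ∈ closedBall κ ρ, ‖deriv (fun z => z ^ d + a z) x‖ ≤
      ((d : ℝ) ^ 2 * 2 ^ d + 1) * (σ ^ (d - 2) * ρ) := by
    intro x hx
    have hxκ : ‖x - κ‖ ≤ ρ := by rwa [mem_closedBall, dist_eq_norm] at hx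
    have hx2 := hball x hx
    have e1 : deriv (fun z => z ^ d + a z) x =
        d * (x ^ (d - 1) - κ ^ (d - 1)) + (deriv a x - deriv a κ) := by
      rw [hderiv]
      linear_combination hcrit
    have h1 : ‖(d : ℂ) * (x ^ (d - 1) - κ ^ (d - 1))‖ ≤
        d * (((d - 1 : ℕ) : ℝ) * (2 * σ) ^ (d - 1 - 1) * ρ) := by
      rw [norm_mul, Complex.norm_natCast]
      apply mul_le_mul_of_nonneg_left _ (by positivity)
      refine (pow_lip (d - 1) hκ2 hx2).trans ?_
      exact mul_le_mul_of_nonneg_left hxκ (by positivity)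
    have h2 : ‖deriv a x - deriv a κ‖ ≤ s * ρ := by
      have h3 := Convex.norm_image_sub_le_of_norm_deriv_le (𝕜 := ℂ) (f := deriv a) (C := s)
        (s := closedBall (0 : ℂ) 2) (x := κ) (y := x) (fun z _ => hda z) (by
          intro y hy
          rw [mem_closedBall, dist_zero_right] at hy
          exact h2a y hy) (convex_closedBall _ _)
          (by rw [mem_closedBall, dist_zero_right]; linarith)
          (by rw [mem_closedBall, dist_zero_right]; linarith)
      exact h3.trans (mul_le_mul_of_nonneg_left hxκ hs.le)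
    have h4 : (((d - 1 : ℕ) : ℝ)) ≤ d := by
      exact_mod_cast Nat.sub_le d 1
    have h5 : (2 * σ) ^ (d - 1 - 1) ≤ 2 ^ d * σ ^ (d - 2) := by
      have e : d - 1 - 1 = d - 2 := by omega
      rw [e, mul_pow]
      apply mul_le_mul_of_nonneg_right _ hσp0
      exact pow_le_pow_right₀ (by norm_num) (by omega)
    have h6 : (((d - 1 : ℕ) : ℝ) * (2 * σ) ^ (d - 1 - 1) * ρ) ≤ d * (2 ^ d * σ ^ (d - 2)) * ρ := by
      apply mul_le_mul_of_nonneg_right _ hρ
      exact mul_le_mul h4 h5 (by positivity) (by positivity)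
    have h7 : s * ρ ≤ σ ^ (d - 2) * ρ := mul_le_mul_of_nonneg_right (hsσ.trans hσp) hρ
    rw [e1]
    calc ‖(d : ℂ) * (x ^ (d - 1) - κ ^ (d - 1)) + (deriv a x - deriv a κ)‖
        ≤ ‖(d : ℂ) * (x ^ (d - 1) - κ ^ (d - 1))‖ + ‖deriv a x - deriv a κ‖ := norm_add_le _ _
      _ ≤ d * (d * (2 ^ d * σ ^ (d - 2)) * ρ) + σ ^ (d - 2) * ρ :=
          add_le_add (h1.trans (mul_le_mul_of_nonneg_left h6 (by positivity))) (h2.trans h7)
      _ = ((d : ℝ) ^ 2 * 2 ^ d + 1) * (σ ^ (d - 2) * ρ) := by ring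
  have hdiff : ∀ x ∈ closedBall κ ρ, DifferentiableAt ℂ (fun z => z ^ d + a z) x := fun x _ =>
    (differentiableAt_pow d).add (ha.hol x)
  have hfin := Convex.norm_image_sub_le_of_norm_deriv_le (𝕜 := ℂ) hdiff hbound
    (convex_closedBall _ _) (mem_closedBall_self hρ) hz
  have hzκ : ‖z - κ‖ ≤ ρ := by rwa [mem_closedBall, dist_eq_norm] at hz
  calc ‖(z ^ d + a z) - (κ ^ d + a κ)‖
      ≤ ((d : ℝ) ^ 2 * 2 ^ d + 1) * (σ ^ (d - 2) * ρ) * ‖z - κ‖ := hfin
    _ ≤ ((d : ℝ) ^ 2 * 2 ^ d + 1) * (σ ^ (d - 2) * ρ) * ρ :=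
        mul_le_mul_of_nonneg_left hzκ (by positivity)
    _ = _ := by ring

end Pool.Agent.Y232.EX.Quad
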